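import Pool.Agent.R110.MT.Refl
import Pool.Agent.R110.MT.Tools

/-!
# Symmetry of a family of monotone triangle polynomial values

`α (2 n + 1; i, 2, ..., n + 1, 1, ..., n) = α (2 n + 1; 3 n + 3 - i, 2, ..., n + 1, 1, ..., n)` for
`1 ≤ i ≤ 3 n + 2`: rotation of the word, followed by reflection, and translation invariance.
-/

set_option autoImplicit false

namespace Pool.Agent.Results.MP_16be1b_co.Symmetry

open Pool.Agent.R110.MT (IsAlpha mtc)

/-- the row `(i, 2, 3, ..., n + 1, 1, 2, ..., n)` with `2 n + 1` entries -/
def row (n : ℕ) (i : ℤ) (j : Fin (2 * n + 1)) : ℤ :=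
  if (j : ℕ) = 0 then i else if (j : ℕ) ≤ n then (j : ℤ) + 1 else (j : ℤ) - n

open Pool.Agent.R110.MT in
theorem al_sym (n i : ℕ) (hi : i ≤ 3 * n + 3) :
    al 0 (i :: (List.range' 2 n ++ List.range' 1 n)) =
      al 0 ((3 * n + 3 - i) :: (List.range' 2 n ++ List.range' 1 n)) := by
  set w := List.range' 2 n ++ List.range' 1 n with hw
  have hlen : w.length = 2 * n := by
    simp only [hw, List.length_append, List.length_range']
    ring
  have h1 := al_trans (i :: w) (2 * n + 1)
  rw [List.map_cons] at h1
  have hl2 : (List.map (fun x : ℕ => x + (2 * n + 1)) w).length = 2 * n := by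
    rw [List.length_map, hlen]
  have h2 := al_rotate (List.map (fun x : ℕ => x + (2 * n + 1)) w) i
  rw [hl2, Even.neg_one_pow ⟨n, by ring⟩, one_mul] at h2
  have h3 := al_refl (List.map (fun x : ℕ => x + (2 * n + 1)) w ++ [i]) (3 * n + 3) (by
    intro x hx
    rw [List.mem_append, List.mem_map] at hx
    rcases hx with ⟨y, hy, rfl⟩ | hx
    · rw [hw, List.mem_append, List.mem_range'_1, List.mem_range'_1] at hy
      omega
    · rw [List.mem_singleton] at hx
      omega)
  have h4 : (List.map (fun x : ℕ => 3 * n + 3 - x)
      (List.map (fun x : ℕ => x + (2 * n + 1)) w ++ [i])).reverse = (3 * n + 3 - i) :: w := by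
    rw [List.map_append, List.map_map, List.reverse_append, List.map_cons, List.map_nil,
      List.reverse_singleton, List.singleton_append]
    congr 1
    rw [hw, List.map_append, List.reverse_append]
    congr 1
    · apply List.ext_getElem
      · simp
      · intro j h5 h6
        rw [List.getElem_reverse]
        simp only [List.getElem_map, List.getElem_range', List.length_map, List.length_range',
          Function.comp]
        simp only [List.length_range'] at h6
        omega
    · apply List.ext_getElem
      · simp
      · intro j h5 h6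
        rw [List.getElem_reverse]
        simp only [List.getElem_map, List.getElem_range', List.length_map, List.length_range',
          Function.comp]
        simp only [List.length_range'] at h6
        omega
  rw [h4] at h3
  rw [h3, ← h2, h1]

open Pool.Agent.R110.MT in
theorem eval_row (n i : ℕ) {P : MvPolynomial (Fin (2 * n + 1)) ℚ} (hP : IsAlpha (2 * n + 1) P) :
    MvPolynomial.eval (fun j : Fin (2 * n + 1) => (row n i j : ℚ)) P =
      al 0 (i :: (List.range' 2 n ++ List.range' 1 n)) := by
  have h1 := hP.eval (fun j : Fin (2 * n + 1) =>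
    if (j : ℕ) = 0 then i else if (j : ℕ) ≤ n then (j : ℕ) + 1 else j - n)
  have h2 : List.ofFn (fun j : Fin (2 * n + 1) =>
      if (j : ℕ) = 0 then i else if (j : ℕ) ≤ n then (j : ℕ) + 1 else j - n) =
      i :: (List.range' 2 n ++ List.range' 1 n) := by
    apply List.ext_getElem
    · simp only [List.length_ofFn, List.length_cons, List.length_append, List.length_range']
      ring
    · intro j hj hj'
      rw [List.getElem_ofFn, List.getElem_cons]
      simp only
      split_ifs with h3 h4
      · rfl
      · rw [List.getElem_append, dif_pos (by rw [List.length_range']; omega)]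
        simp only [List.getElem_range']
        omega
      · rw [List.getElem_append, dif_neg (by rw [List.length_range']; omega)]
        simp only [List.getElem_range', List.length_range']
        omega
  rw [← h2, ← h1]
  congr 2
  funext j
  simp only [row]
  split_ifs with h3 h4
  · push_cast; ring
  · push_cast; ring
  · push_cast [Nat.cast_sub (show n ≤ (j : ℕ) by omega)]
    ring

/-- For every `n ≥ 1` there is exactly one polynomial `P` in `2 n + 1` variables over `ℚ` which
counts the monotone triangles with `2 n + 1` rows and prescribed bottom row, and for every integer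
`1 ≤ i ≤ 3 n + 2` its values at `(i, 2, ..., n + 1, 1, ..., n)` and at
`(3 n + 3 - i, 2, ..., n + 1, 1, ..., n)` agree. -/
theorem result (n : ℕ) (_hn : 1 ≤ n) :
    ∃ P : MvPolynomial (Fin (2 * n + 1)) ℚ, IsAlpha (2 * n + 1) P ∧
      (∀ P' : MvPolynomial (Fin (2 * n + 1)) ℚ, IsAlpha (2 * n + 1) P' → P' = P) ∧
      ∀ i : ℤ, 1 ≤ i → i ≤ 3 * n + 2 →
        MvPolynomial.eval (fun j : Fin (2 * n + 1) => (row n i j : ℚ)) P =
          MvPolynomial.eval (fun j : Fin (2 * n + 1) => (row n (3 * n + 3 - i) j : ℚ)) P := by
  obtain ⟨P, hP, -⟩ := Pool.Agent.R110.MT.exists_alpha (2 * n + 1)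
  refine ⟨P, hP, fun P' hP' => hP.unique hP', ?_⟩
  intro i h1 h2
  obtain ⟨m, rfl⟩ : ∃ m : ℕ, i = m := ⟨i.toNat, by omega⟩
  have h3 : (3 * (n : ℤ) + 3 - m) = ((3 * n + 3 - m : ℕ) : ℤ) := by omega
  rw [h3, eval_row n m hP, eval_row n _ hP, al_sym n m (by omega)]

end Pool.Agent.Results.MP_16be1b_co.Symmetry
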